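import Pool.Agent.Lib.MP_f36384_an.N.Top

namespace Pool.Agent.Results.MP_f36384_an.FinitelyManyExceptions

open Pool.Agent.Lib.MP_f36384_an in
/-- The Taylor coefficients at `t = 0` of the entire functions `t ↦ φ_t^n (-1)`, where
`φ_t z = exp (t z) - 1`, have modulus at most `1` for all but finitely many pairs `(n, k)`. -/
theorem result : {p : ℕ × ℕ | 1 <
    ‖iteratedDeriv p.2 (fun t : ℂ => (fun z : ℂ => Complex.exp (t * z) - 1)^[p.1] (-1)) 0 /
      (p.2.factorial : ℂ)‖}.Finite := by
  obtain ⟨N, h⟩ := large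
  refine ((Set.finite_Iio N).biUnion (t := fun n => Prod.mk n '' {k | 1 < ‖co (F n) k‖})
    fun n _ => Set.Finite.image _ ?_).subset fun p hp => ?_
  · have := ((taylor (F_diff n).differentiableOn (R := 2)).1.sum zero_le_one
      one_lt_two).tendsto_cofinite_zero.eventually_le_const zero_lt_one
    simpa [Filter.eventually_cofinite] using this
  · exact Set.mem_biUnion (lt_of_not_ge fun k => (h _ k _).not_gt hp) ⟨p.2, hp, rfl⟩

end Pool.Agent.Results.MP_f36384_an.FinitelyManyExceptions
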