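import Pool.Agent.Lib.MP_f36384_an.Sq

namespace Pool.Agent.Results.MP_f36384_an.SquareSum

/-- The sum of the squares of the moduli of the Taylor coefficients of order at most `K` of
`t ↦ φ_t^n (-1)`, where `φ_t z = exp (t z) - 1`, grows at most like `log (K / n)`. -/
theorem result (n K : ℕ) (hn : 1 ≤ n) (hK : n ≤ K) :
    ∑ k ∈ Finset.range (K + 1),
      ‖iteratedDeriv k (fun t : ℂ => (fun z : ℂ => Complex.exp (t * z) - 1)^[n] (-1)) 0 /
        (k.factorial : ℂ)‖ ^ 2 ≤ 10000 * (1 + Real.log ((K : ℝ) / (n : ℝ))) :=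
  Pool.Agent.Lib.MP_f36384_an.main_sq hn hK

end Pool.Agent.Results.MP_f36384_an.SquareSum
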