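import Pool.Agent.Lib.MP_f36384_an.Dyn

namespace Pool.Agent.Results.MP_f36384_an.UniformBound

/-- The Taylor coefficients at `t = 0` of the entire functions `t ↦ φ_t^n (-1)`, where
`φ_t z = exp (t z) - 1`, are bounded by `10` uniformly in `n` and `k`. -/
theorem result (n k : ℕ) :
    ‖iteratedDeriv k (fun t : ℂ => (fun z : ℂ => Complex.exp (t * z) - 1)^[n] (-1)) 0 /
      (k.factorial : ℂ)‖ ≤ 10 :=
  Pool.Agent.Lib.MP_f36384_an.main n k

end Pool.Agent.Results.MP_f36384_an.UniformBound
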